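import Pool.Agent.H70.RG.Targets

/-! Row EBOO of the board reg_modules: Schauder theory, induction on the order. -/

namespace Pool.Agent.H29.RG

open MeasureTheory Metric Set Filter Topology Pool.Agent.H87.SN Pool.Agent.H70.RG
open scoped ContDiff

theorem hh_zero (h1 : T_HMO) {n : ℕ} {F : Type} [NormedAddCommGroup F] [NormedSpace ℝ F]
    {U : Set (E n)} (hU : IsOpen U) {g : E n → F} (j : ℕ) (hg : HH j g U) : HH 0 g U := by
  induction j with
  | zero => exact hg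
  | succ j ih => exact ih ((h1 n F j g U hU).1 hg)

theorem pf_BOO (h1 : T_HMO) (h2 : T_SCH) (h3 : T_IBP) : T_BOO := by
  intro n F _ _ _ U hU j
  induction j with
  | zero => intro v g hv hg hW; exact h2 n F U v g hU hv hg hW
  | succ j ih =>
    intro v g hv hg hW
    have hg0 : HH 0 g U := hh_zero h1 hU (j + 1) hg
    have hv2 : HH 2 v U := h2 n F U v g hU hv hg0 hW
    refine ⟨hv2.1, fun i => ?_⟩
    have hcv : ContinuousOn (fun x => fderiv ℝ v x (bv i)) U := (h1 n F 1 _ U hU).2 (hv2.2 i)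
    have hcg : ContinuousOn (fun x => fderiv ℝ g x (bv i)) U := (h1 n F j _ U hU).2 (hg.2 i)
    refine ih _ (fun x => fderiv ℝ g x (bv i)) hcv (hg.2 i) ?_
    intro ψ hψ
    obtain ⟨a1, a2, a3, -⟩ := h3 n F U v (bv i) hU hv2.1 hcv ψ hψ
    obtain ⟨-, -, -, b4⟩ := h3 n F U v (bv i) hU hv2.1 hcv (Pool.Agent.H70.RG.lp ψ) a3
    obtain ⟨-, -, -, c4⟩ := h3 n F U g (bv i) hU hg.1 hcg ψ hψ
    have hw := hW _ a1
    have e1 : ∫ x, fderiv ℝ (Pool.Agent.H70.RG.lp ψ) x (bv i) • v x = ∫ x, fderiv ℝ ψ x (bv i) • g x := by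
      rw [← hw]
      refine integral_congr_ae (Eventually.of_forall fun x => ?_)
      simp only [a2 x]
    have e2 : ∫ x, Pool.Agent.H70.RG.lp ψ x • fderiv ℝ v x (bv i) = - ∫ x, fderiv ℝ (Pool.Agent.H70.RG.lp ψ) x (bv i) • v x := by
      rw [b4, neg_neg]
    rw [e2, e1, c4, neg_neg]

end Pool.Agent.H29.RG
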