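import Pool.Agent.H48.RG.Targets

/-! Row D_DEC of the board reg_modules: decay on the unit ball. -/

namespace Pool.Agent.H29.RG

open MeasureTheory Metric Set Filter Topology Pool.Agent.H87.SN Pool.Agent.H48.RG
open scoped ContDiff RealInnerProductSpace ENNReal

theorem coord_eq {n : ℕ} (v : E n) (i : Fin n) : v i = ⟪v, bv i⟫ := by
  simp [bv, EuclideanSpace.inner_single_right]

theorem norm_le_sum_coord {n : ℕ} (v : E n) : ‖v‖ ≤ ∑ i, |v i| := by
  rw [EuclideanSpace.norm_eq]
  refine Real.sqrt_le_iff.2 ⟨Finset.sum_nonneg fun i _ => abs_nonneg _, ?_⟩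
  calc ∑ i, ‖v i‖ ^ 2 = ∑ i, |v i| * |v i| :=
        Finset.sum_congr rfl fun i _ => by rw [Real.norm_eq_abs]; ring
    _ ≤ ∑ i, |v i| * ∑ j, |v j| := by
        refine Finset.sum_le_sum fun i _ => mul_le_mul_of_nonneg_left ?_ (abs_nonneg _)
        exact Finset.single_le_sum (f := fun j => |v j|) (fun j _ => abs_nonneg _)
          (Finset.mem_univ i)
    _ = (∑ i, |v i|) ^ 2 := by rw [← Finset.sum_mul]; ring

theorem int_inner {n : ℕ} {w G : E n → E n} (hw : IntegrableOn w (ball (0 : E n) 1))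
    (hG : Continuous G) : IntegrableOn (fun x => ⟪w x, G x⟫) (ball (0 : E n) 1) := by
  obtain ⟨C, hC⟩ := (isCompact_closedBall (0 : E n) 1).exists_bound_of_continuousOn hG.continuousOn
  have hm : AEStronglyMeasurable (fun x => ⟪w x, G x⟫) (volume.restrict (ball (0 : E n) 1)) :=
    hw.aestronglyMeasurable.inner hG.aestronglyMeasurable
  refine Integrable.mono' (hw.norm.const_mul C) hm ?_
  refine ae_restrict_of_forall_mem measurableSet_ball fun x hx => ?_
  have h1 : ‖(⟪w x, G x⟫ : ℝ)‖ ≤ ‖w x‖ * ‖G x‖ := norm_inner_le_norm _ _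
  have h2 := hC x (ball_subset_closedBall hx)
  have h3 : ‖w x‖ * ‖G x‖ ≤ C * ‖w x‖ := by
    rw [mul_comm C]; exact mul_le_mul_of_nonneg_left h2 (norm_nonneg _)
  exact h1.trans h3

theorem pf_DEC (hG : T_GAU) (hW : T_WWP) (hH : T_HLM) (h1 : T_DE1) (h2 : T_DE2) (hD : T_DUA) :
    T_DEC := by
  intro n m K hn hK
  obtain ⟨CH, hCH, hHL⟩ := hH n hn
  obtain ⟨C1, hC1, hE1⟩ := h1 n m K CH hn hK hCH
  obtain ⟨C2, e0, hC2, he0, he01, hE2⟩ := h2 n m K CH hn hK hCH
  refine ⟨m * n * (1 + CH * m) + 1, ?_, ?_⟩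
  · have : 0 ≤ (m : ℝ) * n * (1 + CH * m) := by positivity
    linarith
  intro θ hθ hθ4
  have hθn : 0 < θ ^ n := by positivity
  have hden : 0 < C1 + C2 + 1 := by positivity
  obtain ⟨e, hedef⟩ : ∃ e : ℝ, e = min e0 (θ ^ n / (C1 + C2 + 1)) := ⟨_, rfl⟩
  have hepos : 0 < e := by rw [hedef]; exact lt_min he0 (by positivity)
  have hee0 : e ≤ e0 := by rw [hedef]; exact min_le_left _ _
  have hee1 : e ≤ θ ^ n / (C1 + C2 + 1) := by rw [hedef]; exact min_le_right _ _
  have he1 : e ≤ 1 := hee0.trans he01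
  refine ⟨e ^ 4, by positivity, ?_⟩
  intro u D Om M hS hM hMor hen k
  -- the gauge
  have hOm : ∀ i j, MemLp (Om i j) 2 (volume.restrict (ball (0 : E n) 1)) := by
    intro i j
    have hg : MemLp (fun x => K * ∑ k, ‖D k x‖) 2 (volume.restrict (ball (0 : E n) 1)) := by
      refine MemLp.const_mul ?_ K
      exact memLp_finsetSum _ fun k _ => (hS.wb k).d2.norm
    refine hg.mono (hS.ms i j) ?_
    filter_upwards [hS.le i j] with x hx
    refine hx.trans ?_
    exact le_abs_self _
  obtain ⟨P, DP, hP⟩ := hG n m hn Om hOm hS.anti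
  obtain ⟨w1, w2, -, -, -⟩ := hW n m K u D Om P DP hS hP
  haveI : IsFiniteMeasure (volume.restrict (ball (0 : E n) 1)) :=
    ⟨by rw [Measure.restrict_apply_univ]; exact measure_ball_lt_top⟩
  have hwi : ∀ j, IntegrableOn (ww P D j) (ball (0 : E n) 1) := by
    intro j
    exact (w2 j).integrable (by norm_num)
  have hDi : ∀ k, IntegrableOn (fun x => ‖D k x‖) (ball (0 : E n) 1) := by
    intro k
    exact ((hS.wb k).d2.integrable (by norm_num)).norm
  have hD1 : ∀ k, ∫ x in ball (0 : E n) 1, ‖D k x‖ ≤ M := by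
    intro k
    have h := hMor k 0 1 one_pos Subset.rfl
    simpa using h
  have hw1 : ∀ j, ∫ x in ball (0 : E n) 1, ‖ww P D j x‖ ≤ m * M := by
    intro j
    calc ∫ x in ball (0 : E n) 1, ‖ww P D j x‖
        ≤ ∫ x in ball (0 : E n) 1, ∑ k, ‖D k x‖ := by
          refine integral_mono_ae (hwi j).norm (integrable_finsetSum _ fun k _ => hDi k) ?_
          filter_upwards [w1] with x hx
          exact hx.2.2.1 j
      _ = ∑ k, ∫ x in ball (0 : E n) 1, ‖D k x‖ := integral_finsetSum _ fun k _ => hDi k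
      _ ≤ ∑ _k : Fin m, M := Finset.sum_le_sum fun k _ => hD1 k
      _ = m * M := by simp
  have hen2 : ∑ k, ∫ x in ball (0 : E n) 1, ‖D k x‖ ^ 2 ≤ e ^ 2 := by
    refine hen.trans ?_
    exact pow_le_pow_of_le_one hepos.le he1 (by norm_num)
  -- the bound for each coordinate
  have key : ∀ (j : Fin m) (i : Fin n),
      ∫ x in ball (0 : E n) θ, |(ww P D j x) i| ≤ θ ^ n * M * (1 + CH * m) := by
    intro j i
    have hsub : ball (0 : E n) θ ⊆ ball 0 1 := ball_subset_ball (by linarith)
    have hco : ∀ x, (ww P D j x) i = ⟪ww P D j x, bv i⟫ := fun x => coord_eq _ _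
    have hint : IntegrableOn (fun x => (ww P D j x) i) (ball (0 : E n) 1) := by
      have h := int_inner (G := fun _ => bv i) (hwi j) continuous_const
      simpa only [← hco] using h
    refine hD n θ _ _ hθ (hint.mono_set hsub) ?_
    intro f hf hf1
    obtain ⟨a, H, R, a1, a2, a3, a4, b1, b2, b3, b4, c1, c2, c3, hdec⟩ := hHL θ hθ hθ4 f hf hf1 i
    have hga : Continuous (gradient a) := by
      have hc : Continuous (fderiv ℝ a) := a1.continuous_fderiv (by simp)
      exact (LinearIsometryEquiv.continuous _).comp hc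
    have hoff : ∀ x, x ∉ ball (0 : E n) θ → f x = 0 := by
      intro x hx
      exact image_eq_zero_of_notMem_tsupport fun h => hx (hf.2.2 h)
    have e1 : ∫ x in ball (0 : E n) θ, f x * (ww P D j x) i =
        ∫ x in ball (0 : E n) 1, f x * (ww P D j x) i := by
      rw [setIntegral_eq_integral_of_forall_compl_eq_zero, setIntegral_eq_integral_of_forall_compl_eq_zero]
      · intro x hx
        rw [hoff x fun h => hx (hsub h), zero_mul]
      · intro x hx
        rw [hoff x hx, zero_mul]
    have e2 : ∀ x, f x * (ww P D j x) i =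
        ⟪ww P D j x, gradient a x⟫ + ⟪ww P D j x, H x⟫ + ⟪ww P D j x, R x⟫ := by
      intro x
      rw [← inner_add_right, ← inner_add_right, ← hdec x, inner_smul_right, hco x]
    rw [e1, integral_congr_ae (Eventually.of_forall e2)]
    have i1 := int_inner (hwi j) hga
    have i2 := int_inner (hwi j) b1
    have i3 := int_inner (hwi j) c1
    have i12 : IntegrableOn (fun x => ⟪ww P D j x, gradient a x⟫ + ⟪ww P D j x, H x⟫)
        (ball (0 : E n) 1) := i1.add i2
    have s1 := integral_add (μ := volume.restrict (ball (0 : E n) 1)) i12 i3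
    have s2 := integral_add (μ := volume.restrict (ball (0 : E n) 1)) i1 i2
    rw [s1, s2]
    have t1 := le_of_abs_le (hE1 u D Om P DP M e hS hP hM hMor hepos.le he1 hen2 a a1 a2 a3 a4 j)
    have t2 := le_of_abs_le (hE2 u D Om P DP M e hS hP hM hMor hepos.le hee0 hen H b1 b2 b3 b4 j)
    have t3 : ∫ x in ball (0 : E n) 1, ⟪ww P D j x, R x⟫ ≤ CH * θ ^ n * (m * M) := by
      calc ∫ x in ball (0 : E n) 1, ⟪ww P D j x, R x⟫
          ≤ ∫ x in ball (0 : E n) 1, CH * θ ^ n * ‖ww P D j x‖ := by
            refine integral_mono i3 ((hwi j).norm.const_mul _) fun x => ?_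
            have h := real_inner_le_norm (ww P D j x) (R x)
            have h' := mul_le_mul_of_nonneg_left (c3 x) (norm_nonneg (ww P D j x))
            simp only
            linarith [mul_comm ‖ww P D j x‖ (CH * θ ^ n)]
        _ = CH * θ ^ n * ∫ x in ball (0 : E n) 1, ‖ww P D j x‖ := integral_const_mul _ _
        _ ≤ CH * θ ^ n * (m * M) := mul_le_mul_of_nonneg_left (hw1 j) (by positivity)
    have t4 : (C1 + C2) * e * M ≤ θ ^ n * M := by
      have h5 : (C1 + C2) * e ≤ θ ^ n := by
        have h6 : (C1 + C2 + 1) * e ≤ θ ^ n := by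
          have := mul_le_mul_of_nonneg_left hee1 hden.le
          rwa [mul_div_cancel₀ _ hden.ne'] at this
        linarith
      exact mul_le_mul_of_nonneg_right h5 hM
    have t5 : θ ^ n * M * (1 + CH * m) = θ ^ n * M + CH * θ ^ n * (m * M) := by ring
    rw [t5]
    linarith [t1, t2, t3, t4, (by ring : (C1 + C2) * e * M = C1 * e * M + C2 * e * M)]
  -- conclusion
  have hsub : ball (0 : E n) θ ⊆ ball 0 1 := ball_subset_ball (by linarith)
  have hci : ∀ (j : Fin m) (i : Fin n), IntegrableOn (fun x => |(ww P D j x) i|) (ball (0 : E n) θ) := by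
    intro j i
    have h := int_inner (G := fun _ => bv i) (hwi j) continuous_const
    have h' : IntegrableOn (fun x => (ww P D j x) i) (ball (0 : E n) 1) := by
      simpa only [← coord_eq] using h
    exact (h'.mono_set hsub).abs
  calc ∫ x in ball (0 : E n) θ, ‖D k x‖
      ≤ ∫ x in ball (0 : E n) θ, ∑ j, ∑ i, |(ww P D j x) i| := by
        refine integral_mono_ae ((hDi k).mono_set hsub)
          (integrable_finsetSum _ fun j _ => integrable_finsetSum _ fun i _ => hci j i) ?_
        filter_upwards [ae_restrict_of_ae_restrict_of_subset hsub w1] with x hx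
        exact (hx.2.2.2 k).trans (Finset.sum_le_sum fun j _ => norm_le_sum_coord _)
    _ = ∑ j, ∑ i, ∫ x in ball (0 : E n) θ, |(ww P D j x) i| := by
        rw [integral_finsetSum _ fun j _ => integrable_finsetSum _ fun i _ => hci j i]
        exact Finset.sum_congr rfl fun j _ => integral_finsetSum _ fun i _ => hci j i
    _ ≤ ∑ _j : Fin m, ∑ _i : Fin n, θ ^ n * M * (1 + CH * m) :=
        Finset.sum_le_sum fun j _ => Finset.sum_le_sum fun i _ => key j i
    _ = m * n * (1 + CH * m) * (θ ^ n * M) := by simp; ring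
    _ ≤ (m * n * (1 + CH * m) + 1) * (θ ^ n * M) := by
        refine mul_le_mul_of_nonneg_right (by linarith) (by positivity)
    _ = (m * n * (1 + CH * m) + 1) * θ ^ n * M := by ring

end Pool.Agent.H29.RG
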